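import Mathlib
import Pool.Agent.U808.MM7

set_option autoImplicit false
set_option linter.unusedSectionVars false

/-!
# MP_7561b1_an, Q2 (positive answer)

The generic extension of a multiply mixing automorphism is multiply mixing.
-/

open MeasureTheory Set Filter Topology
open scoped ENNReal symmDiff

namespace Pool.Agent.Results.MP_7561b1_an.MultipleMixingGeneric

/-- Invertible bimeasurable `m`-preserving maps of `Z` onto itself (representatives of the elements
of `Aut(Z, m)`). -/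
def PreAut {Z : Type*} [MeasurableSpace Z] (m : Measure Z) : Type _ :=
  {S : Z ≃ᵐ Z // MeasurePreserving S m m}

/-- `S` is multiply mixing (mixing of all orders): for every `k ≥ 2` and all measurable `A 0, …, A k`,
`m(A 0 ∩ S^{-n 1} A 1 ∩ … ∩ S^{-n k} A k) → m(A 0) ⋯ m(A k)` as `n 1 → ∞` and
`n (i + 1) - n i → ∞` for all `i` (here `n 0 = 0`). -/
def MultiplyMixing {Z : Type*} [MeasurableSpace Z] (m : Measure Z) (S : Z → Z) : Prop :=
  ∀ k : ℕ, 2 ≤ k → ∀ A : ℕ → Set Z, (∀ i, MeasurableSet (A i)) → ∀ ε : ℝ, 0 < ε →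
    ∃ N : ℕ, ∀ n : ℕ → ℕ, n 0 = 0 → (∀ i < k, n i + N ≤ n (i + 1)) →
      |m.real {z | ∀ i ≤ k, S^[n i] z ∈ A i} - ∏ i ∈ Finset.range (k + 1), m.real (A i)| < ε

/-- Measurable cocycles `α : X → Aut(Y, ν)` (representatives): jointly measurable families of
automorphisms of `(Y, ν)`. -/
def PreCocycle (X : Type*) {Y : Type*} [MeasurableSpace X] [MeasurableSpace Y] (ν : Measure Y) : Type _ :=
  {α : X → PreAut ν // Measurable (fun z : X × Y => (α z.1).1 z.2)}

section
variable {X Y : Type*} [MeasurableSpace X] [MeasurableSpace Y]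

/-- Equality of cocycles modulo null sets. -/
def cocEq (μ : Measure X) (ν : Measure Y) : Setoid (PreCocycle X ν) where
  r := fun α β => ∀ᵐ x ∂μ, ∀ᵐ y ∂ν, (α.1 x).1 y = (β.1 x).1 y
  iseqv :=
    { refl := fun α => Eventually.of_forall fun x => Eventually.of_forall fun y => rfl
      symm := fun {α β} h => h.mono fun x hx => hx.mono fun y hy => hy.symm
      trans := fun {α β γ} h h' => by
        filter_upwards [h, h'] with x h1 h2
        filter_upwards [h1, h2] with y h3 h4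
        exact h3.trans h4 }

/-- The space of cocycles modulo null sets. -/
def Cocycle (μ : Measure X) (ν : Measure Y) : Type _ := Quotient (cocEq μ ν)

/-- The class of a representative. -/
def cls (μ : Measure X) {ν : Measure Y} (α : PreCocycle X ν) : Cocycle μ ν := Quotient.mk (cocEq μ ν) α

/-- The classes of the cocycles `β` with `μ {x : ν (α(x)B Δ β(x)B) ≥ ε} < ε`. -/
def nbd (μ : Measure X) {ν : Measure Y} (α : PreCocycle X ν) (B : Set Y) (ε : ℝ) : Set (Cocycle μ ν) :=
  {q | ∃ β : PreCocycle X ν, cls μ β = q ∧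
    μ.real {x | ε ≤ ν.real (((α.1 x).1 '' B) ∆ ((β.1 x).1 '' B))} < ε}

/-- Convergence in measure of cocycles, `Aut(Y, ν)` carrying the weak topology. -/
instance inMeasure (μ : Measure X) (ν : Measure Y) : TopologicalSpace (Cocycle μ ν) :=
  TopologicalSpace.generateFrom
    {U | ∃ (α : PreCocycle X ν) (B : Set Y) (ε : ℝ), MeasurableSet B ∧ 0 < ε ∧ U = nbd μ α B ε}

/-- The extension `T_α(x, y) = (Tx, α(x)y)`. -/
def ext {μ : Measure X} {ν : Measure Y} (T : PreAut μ) (α : PreCocycle X ν) (z : X × Y) : X × Y :=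
  (T.1 z.1, (α.1 z.1).1 z.2)

/-- The set of cocycles `α` for which `T_α` is multiply mixing (for every representative). -/
def MixingCocycles {μ : Measure X} (T : PreAut μ) (ν : Measure Y) : Set (Cocycle μ ν) :=
  {q | ∀ α : PreCocycle X ν, cls μ α = q → MultiplyMixing (μ.prod ν) (ext T α)}

end

/-! ### proof -/

open Pool.Agent.W744.NG Pool.Agent.W744.NG.Final

section
variable {X Y : Type} [MeasurableSpace X] [StandardBorelSpace X] [MeasurableSpace Y] [StandardBorelSpace Y]
  {μ : Measure X} {ν : Measure Y} [IsProbabilityMeasure μ] [IsProbabilityMeasure ν]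

theorem real_img (S S' : AU ν) (h : ∀ᵐ y ∂ν, S.1 y = S'.1 y) (A B : Set Y) :
    ν.real (A ∆ (S.1 '' B)) = ν.real (A ∆ (S'.1 '' B)) := by
  apply measureReal_congr
  exact (ae_eq_refl A).symmDiff (Pool.H359R3.MX.img_ae ν S.1 S'.1 S.2 h B)

theorem mem_nbd (α β : PreCocycle X ν) (B : Set Y) (ε : ℝ) :
    cls μ β ∈ nbd μ α B ε ↔ (β : Coc X ν) ∈ NB μ (α : Coc X ν) B ε := by
  constructor
  · rintro ⟨β', h1, h2⟩
    have h3 : ∀ᵐ x ∂μ, ∀ᵐ y ∂ν, (β'.1 x).1 y = (β.1 x).1 y := Quotient.exact h1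
    show μ.real {x | ε ≤ ν.real (((α.1 x).1 '' B) ∆ ((β.1 x).1 '' B))} < ε
    refine lt_of_le_of_lt (le_of_eq ?_) h2
    apply measureReal_congr
    filter_upwards [h3] with x hx
    apply propext
    have h4 := real_img (β'.1 x) (β.1 x) hx ((α.1 x).1 '' B) B
    show ε ≤ ν.real (((α.1 x).1 '' B) ∆ ((β.1 x).1 '' B)) ↔ ε ≤ ν.real (((α.1 x).1 '' B) ∆ ((β'.1 x).1 '' B))
    rw [← h4]
  · intro h
    exact ⟨β, rfl, h⟩

/-- the class map on the cocycles of the library -/
def clsC (μ : Measure X) (ν : Measure Y) (Φ : Coc X ν) : Cocycle μ ν := cls μ Φ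

theorem cls_surj : Function.Surjective (clsC μ ν) := Quotient.mk_surjective

theorem ind : @IsInducing (Coc X ν) (Cocycle μ ν) (tC μ ν) _ (clsC μ ν) := by
  refine @IsInducing.mk _ _ (tC μ ν) _ _ ?_
  show tC μ ν = TopologicalSpace.induced (clsC μ ν) (TopologicalSpace.generateFrom _)
  rw [induced_generateFrom_eq]
  refine congrArg TopologicalSpace.generateFrom ?_
  ext U
  constructor
  · rintro ⟨α, B, ε, hB, hε, rfl⟩
    refine ⟨nbd μ α B ε, ⟨α, B, ε, hB, hε, rfl⟩, ?_⟩
    ext β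
    exact mem_nbd α β B ε
  · rintro ⟨_, ⟨α, B, ε, hB, hε, rfl⟩, rfl⟩
    refine ⟨α, B, ε, hB, hε, ?_⟩
    ext β
    exact mem_nbd α β B ε

theorem pre_mix (T : AU μ) : {Φ : Coc X ν | Pool.Agent.U808.MM.MI (μ.prod ν) (sk T.1 Φ)} ⊆
    clsC μ ν ⁻¹' (MixingCocycles (T : PreAut μ) ν) := by
  intro Φ hΦ α hα
  have h3 : ∀ᵐ x ∂μ, ∀ᵐ y ∂ν, (α.1 x).1 y = (Φ.1 x).1 y := Quotient.exact hα
  have h4 : ∀ᵐ z ∂(μ.prod ν), sk T.1 Φ z = sk T.1 (α : Coc X ν) z := by
    have h5 : MeasurableSet {z : X × Y | (α.1 z.1).1 z.2 = (Φ.1 z.1).1 z.2} :=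
      measurableSet_eq_fun α.2 Φ.2
    have h6 : ∀ᵐ z ∂(μ.prod ν), (α.1 z.1).1 z.2 = (Φ.1 z.1).1 z.2 := by
      rw [Measure.ae_prod_iff_ae_ae h5]
      exact h3
    filter_upwards [h6] with z hz
    unfold sk
    exact Prod.ext rfl hz.symm
  have h7 := Pool.Agent.U808.MM.mi_congr (sk_mp T Φ) h4 hΦ
  exact Pool.Agent.U808.MM.MM_of_MI h7

end

/-- **Theorem.** Let `T` be a multiply mixing automorphism of a nonatomic standard probability space
`(X, μ)` and `(Y, ν)` a nonatomic standard probability space. Then the set of cocycles `α` for which the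
extension `T_α` is multiply mixing is comeagre in the space of cocycles (modulo null sets, convergence
in measure), and contains a dense `G_δ` set. -/
theorem result {X : Type} [MeasurableSpace X] [StandardBorelSpace X] (μ : Measure X)
    [IsProbabilityMeasure μ] [NullSingletonClass μ] (T : PreAut μ) (hT : MultiplyMixing μ T.1)
    (Y : Type) [MeasurableSpace Y] [StandardBorelSpace Y] (ν : Measure Y) [IsProbabilityMeasure ν]
    [NullSingletonClass ν] :
    MixingCocycles T ν ∈ residual (Cocycle μ ν) ∧ ∃ G ⊆ MixingCocycles T ν, IsGδ G ∧ Dense G := by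
  obtain ⟨D⟩ := YSt.main Y ν
  have hMI : Pool.Agent.U808.MM.MI μ T.1 := Pool.Agent.U808.MM.MI_of_MM T.2 hT
  have h1 := Pool.Agent.U808.MM.generic (μ := μ) (ν := ν) (T : AU μ) hMI D
  let _ : TopologicalSpace (Coc X ν) := tC μ ν
  have h2 : MixingCocycles T ν ∈ residual (Cocycle μ ν) := by
    rw [res_iff (clsC μ ν) ind cls_surj]
    exact Filter.mem_of_superset h1 (pre_mix (T : AU μ))
  have hB : BaireSpace (Coc X ν) := All.baire X Y μ ν
  exact ⟨h2, Pool.Agent.U808.MM.gdelta_of_residual (clsC μ ν) ind cls_surj _ h2⟩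

end Pool.Agent.Results.MP_7561b1_an.MultipleMixingGeneric
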